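import Mathlib
import Pool.Agent.J4H26.KP.Q
import Pool.Agent.J4H95.PC.Gam

set_option autoImplicit false

/-! Project KP (J7): window averages and forms, for `K` forms. -/

namespace Pool.Agent.J4H45.KP

open Finset Filter Real MeasureTheory
open Pool.Agent.J4H39 (T od ex pb ns rn stP GK Cm DV th0 cnt Per id1 id1_pos id1_neg id1_nonneg id1_le_one)
open Pool.Agent.J4H26.PC
open Pool.Agent.J4H26.KP
open Pool.Agent.J4H95.PC
open Pool.Agent.H499R2.CO (rho rho_nonneg)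

theorem prod_near {ι : Type*} (s : Finset ι) (a b : ι → ℝ) (ha : ∀ i, |a i| ≤ 2) (hb : ∀ i, |b i| ≤ 1) :
    |∏ i ∈ s, a i - ∏ i ∈ s, b i| ≤ 2 ^ #s * ∑ i ∈ s, |a i - b i| := by
  classical
  induction s using Finset.induction_on with
  | empty => simp
  | insert j s hj ih =>
    rw [prod_insert hj, prod_insert hj, sum_insert hj, card_insert_of_notMem hj, pow_succ]
    have hB : |∏ i ∈ s, b i| ≤ 1 := by
      rw [abs_prod]
      exact prod_le_one (fun i _ => abs_nonneg _) (fun i _ => hb i)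
    have e : a j * ∏ i ∈ s, a i - b j * ∏ i ∈ s, b i =
        a j * (∏ i ∈ s, a i - ∏ i ∈ s, b i) + (a j - b j) * ∏ i ∈ s, b i := by ring
    rw [e]
    have h1 : |a j * (∏ i ∈ s, a i - ∏ i ∈ s, b i)| ≤ 2 * (2 ^ #s * ∑ i ∈ s, |a i - b i|) := by
      rw [abs_mul]
      exact mul_le_mul (ha j) ih (abs_nonneg _) (by norm_num)
    have h2 : |(a j - b j) * ∏ i ∈ s, b i| ≤ |a j - b j| * 1 := by
      rw [abs_mul]
      exact mul_le_mul_of_nonneg_left hB (abs_nonneg _)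
    have h3 : (1 : ℝ) ≤ 2 ^ #s := one_le_pow₀ (by norm_num)
    have h4 := abs_add_le (a j * (∏ i ∈ s, a i - ∏ i ∈ s, b i)) ((a j - b j) * ∏ i ∈ s, b i)
    have h5 : |a j - b j| * 1 ≤ 2 ^ #s * 2 * |a j - b j| := by
      nlinarith [abs_nonneg (a j - b j)]
    nlinarith

theorem Ph_le {f : ℤ → ℝ} (hf : Iv f) {x b : ℝ} (hb : 1 ≤ b) : |Ph f x b| ≤ 2 := by
  unfold Ph
  rw [max_eq_left hb, abs_div, abs_of_pos (by linarith : 0 < b), div_le_iff₀ (by linarith)]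
  have := win_bd zero_le_one hf.bd (x := x) (b := b) (by linarith)
  linarith

/-- one form: the window average is near the value at the points of the window -/
theorem Ph_near {g : ℤ → ℝ} (hg : Iv g) (k D R : ℕ) {x b : ℝ} (hb : 1 ≤ b) (hR : 3 ^ D * b < R + 1) {n : ℤ}
    (hn : n ∈ Finset.Ico ⌈x⌉ ⌈x + b⌉) :
    |Ph g (3 ^ D * x) (3 ^ D * b) - g (3 ^ D * n)| ≤ 2 / (3 ^ D * b) * HH k D R n + 1 / b := by
  have hq : (0 : ℝ) < 3 ^ D := by positivity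
  have hq1 : (1 : ℝ) ≤ 3 ^ D := one_le_pow₀ (by norm_num)
  have hb0 : 0 < b := by linarith
  have hqb : 1 ≤ 3 ^ D * b := by nlinarith
  have hqb0 : 0 < 3 ^ D * b := by linarith
  unfold Ph
  rw [max_eq_left hqb]
  set Bx := Finset.Ico ⌈3 ^ D * x⌉ ⌈3 ^ D * x + 3 ^ D * b⌉ with hBx
  have cB : |(#Bx : ℝ) - 3 ^ D * b| ≤ 1 := by
    have h1 := Int.ceil_lt_add_one (3 ^ D * x + 3 ^ D * b)
    have h2 := Int.le_ceil (3 ^ D * x)
    have h1' := Int.ceil_lt_add_one (3 ^ D * x)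
    have h2' := Int.le_ceil (3 ^ D * x + 3 ^ D * b)
    have h3 : ⌈3 ^ D * x⌉ ≤ ⌈3 ^ D * x + 3 ^ D * b⌉ := Int.ceil_mono (by linarith)
    have h4 : (#Bx : ℝ) = (⌈3 ^ D * x + 3 ^ D * b⌉ : ℝ) - ⌈3 ^ D * x⌉ := by
      rw [hBx, Int.card_Ico]
      have : (((⌈3 ^ D * x + 3 ^ D * b⌉ - ⌈3 ^ D * x⌉).toNat : ℕ) : ℤ) = ⌈3 ^ D * x + 3 ^ D * b⌉ - ⌈3 ^ D * x⌉ :=
        Int.toNat_of_nonneg (by omega)
      exact_mod_cast this
    rw [h4, abs_le]
    constructor <;> linarith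
  have e1 : (∑ m ∈ Bx, g m) / (3 ^ D * b) - g (3 ^ D * n) =
      (∑ m ∈ Bx, (g m - g (3 ^ D * n)) + (#Bx - 3 ^ D * b) * g (3 ^ D * n)) / (3 ^ D * b) := by
    rw [sum_sub_distrib, sum_const, nsmul_eq_mul, eq_div_iff hqb0.ne', sub_mul, div_mul_cancel₀ _ hqb0.ne']
    ring
  rw [e1, abs_div, abs_of_pos hqb0]
  rw [Finset.mem_Ico] at hn
  have hn1 : x ≤ n := by
    have := Int.le_ceil x
    have h : (⌈x⌉ : ℝ) ≤ n := by exact_mod_cast hn.1
    linarith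
  have hn2 : (n : ℝ) < x + b := by
    have := hn.2
    rwa [Int.lt_ceil] at this
  have h2 : |∑ m ∈ Bx, (g m - g (3 ^ D * n)) + (#Bx - 3 ^ D * b) * g (3 ^ D * n)| ≤ 2 * HH k D R n + 1 := by
    refine (abs_add_le _ _).trans (add_le_add ?_ ?_)
    · refine (abs_sum_le_sum_abs _ _).trans ?_
      have h3 : ∀ m ∈ Bx, |g m - g (3 ^ D * n)| ≤ 2 * id1 (rn stP k (0, m - 3 ^ D * n) (3 ^ D * n) ≠ (0, 0)) := by
        intro m _
        have hrel := Pool.Agent.J4H39.rel_nat 0 (m - 3 ^ D * n) (3 ^ D * n)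
        rw [pow_zero, one_mul, add_sub_cancel] at hrel
        by_cases c : rn stP k (0, m - 3 ^ D * n) (3 ^ D * n) = (0, 0)
        · rw [Iv_merge hg hrel c, sub_self, abs_zero]
          have := id1_nonneg (rn stP k (0, m - 3 ^ D * n) (3 ^ D * n) ≠ (0, 0))
          positivity
        · rw [id1_pos (P := rn stP k (0, m - 3 ^ D * n) (3 ^ D * n) ≠ (0, 0)) c]
          have := abs_sub (g m) (g (3 ^ D * n))
          have := hg.bd m
          have := hg.bd (3 ^ D * n)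
          linarith
      refine (sum_le_sum h3).trans ?_
      rw [← mul_sum]
      apply mul_le_mul_of_nonneg_left _ (by norm_num)
      unfold HH
      have h4 : ∑ m ∈ Bx, id1 (rn stP k (0, m - 3 ^ D * n) (3 ^ D * n) ≠ (0, 0)) =
          ∑ r ∈ Bx.image (fun m => m - 3 ^ D * n), id1 (rn stP k (0, r) (3 ^ D * n) ≠ (0, 0)) := by
        rw [sum_image]
        intro m _ m' _ h
        simp only at h
        linarith
      rw [h4]
      apply sum_le_sum_of_subset_of_nonneg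
      · intro r hr
        rw [Finset.mem_image] at hr
        obtain ⟨m, hm, rfl⟩ := hr
        rw [hBx, Finset.mem_Ico] at hm
        have hm1 : 3 ^ D * x ≤ m := by
          have := Int.le_ceil (3 ^ D * x)
          have h : (⌈3 ^ D * x⌉ : ℝ) ≤ m := by exact_mod_cast hm.1
          linarith
        have hm2 : (m : ℝ) < 3 ^ D * x + 3 ^ D * b := by
          have := hm.2
          rwa [Int.lt_ceil] at this
        have l1 : (3 : ℝ) ^ D * x ≤ 3 ^ D * n := by gcongr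
        have l2 : (3 : ℝ) ^ D * n < 3 ^ D * (x + b) := by gcongr
        have l3 : (m : ℝ) - 3 ^ D * n < R + 1 := by nlinarith
        have l4 : -((R : ℝ) + 1) < (m : ℝ) - 3 ^ D * n := by nlinarith
        have l3' : m - 3 ^ D * n < R + 1 := by exact_mod_cast l3
        have l4' : -((R : ℤ) + 1) < m - 3 ^ D * n := by exact_mod_cast l4
        rw [Finset.mem_Icc]
        constructor <;> linarith
      · intro r _ _
        exact id1_nonneg _
    · rw [abs_mul]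
      exact mul_le_one₀ cB (abs_nonneg _) (hg.bd _)
  calc _ ≤ (2 * HH k D R n + 1) / (3 ^ D * b) := by gcongr
    _ = 2 / (3 ^ D * b) * HH k D R n + (1 / b) * (1 / 3 ^ D) := by field_simp
    _ ≤ 2 / (3 ^ D * b) * HH k D R n + (1 / b) * 1 := by
        gcongr
        rw [div_le_one hq]; exact hq1
    _ = _ := by ring

/-- pointwise comparison -/
theorem PhK_prod {K : ℕ} {F : Fin K → ℤ → ℝ} (hF : ∀ i, Iv (F i)) (k : ℕ) (D R : Fin K → ℕ) {x b : ℝ} (hb : 1 ≤ b)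
    (hR : ∀ i, 3 ^ D i * b < R i + 1) :
    |∏ i, Ph (F i) (3 ^ D i * x) (3 ^ D i * b) - (∑ n ∈ Finset.Ico ⌈x⌉ ⌈x + b⌉, ∏ i, F i (3 ^ D i * n)) / b| ≤
      2 ^ K * (2 * K + 1) / b + ∑ i, 2 ^ K * 2 / (3 ^ D i * b ^ 2) * ∑ n ∈ Finset.Ico ⌈x⌉ ⌈x + b⌉, HH k (D i) (R i) n := by
  have hb0 : 0 < b := by linarith
  set P := ∏ i, Ph (F i) (3 ^ D i * x) (3 ^ D i * b) with hP
  set A := Finset.Ico ⌈x⌉ ⌈x + b⌉ with hA
  have hq1 : ∀ i, (1 : ℝ) ≤ 3 ^ D i := fun i => one_le_pow₀ (by norm_num)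
  have hqb : ∀ i, 1 ≤ 3 ^ D i * b := fun i => by nlinarith [hq1 i]
  have hPb : |P| ≤ 2 ^ K := by
    rw [hP, abs_prod]
    calc ∏ i, |Ph (F i) (3 ^ D i * x) (3 ^ D i * b)| ≤ ∏ _i : Fin K, (2 : ℝ) :=
          prod_le_prod (fun _ _ => abs_nonneg _) (fun i _ => Ph_le (hF i) (hqb i))
      _ = 2 ^ K := by simp
  have hc : (#A : ℝ) = (⌈x + b⌉ : ℝ) - ⌈x⌉ := by
    have h3 : ⌈x⌉ ≤ ⌈x + b⌉ := Int.ceil_mono (by linarith)
    rw [hA, Int.card_Ico]
    have : (((⌈x + b⌉ - ⌈x⌉).toNat : ℕ) : ℤ) = ⌈x + b⌉ - ⌈x⌉ := Int.toNat_of_nonneg (by omega)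
    exact_mod_cast this
  have c1 := Int.ceil_lt_add_one (x + b)
  have c2 := Int.le_ceil x
  have c3 := Int.ceil_lt_add_one x
  have c4 := Int.le_ceil (x + b)
  have cA : (#A : ℝ) ≤ 2 * b := by rw [hc]; linarith
  have cA' : |b - (#A : ℝ)| ≤ 1 := by
    rw [hc, abs_le]; constructor <;> linarith
  have e1 : P - (∑ n ∈ A, ∏ i, F i (3 ^ D i * n)) / b =
      (∑ n ∈ A, (P - ∏ i, F i (3 ^ D i * n)) + (b - #A) * P) / b := by
    rw [sum_sub_distrib, sum_const, nsmul_eq_mul]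
    field_simp
    ring
  rw [e1, abs_div, abs_of_pos hb0]
  have h1 : ∀ n ∈ A, |P - ∏ i, F i (3 ^ D i * n)| ≤
      2 ^ K * ∑ i, (2 / (3 ^ D i * b) * HH k (D i) (R i) n + 1 / b) := by
    intro n hn
    have h2 := prod_near (univ : Finset (Fin K)) (fun i => Ph (F i) (3 ^ D i * x) (3 ^ D i * b))
      (fun i => F i (3 ^ D i * n)) (fun i => Ph_le (hF i) (hqb i)) (fun i => (hF i).bd _)
    rw [Finset.card_univ, Fintype.card_fin] at h2
    refine h2.trans ?_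
    apply mul_le_mul_of_nonneg_left _ (by positivity)
    exact sum_le_sum fun i _ => Ph_near (hF i) k (D i) (R i) hb (hR i) hn
  have h3 : |∑ n ∈ A, (P - ∏ i, F i (3 ^ D i * n)) + (b - #A) * P| ≤
      2 ^ K * (∑ i, 2 / (3 ^ D i * b) * ∑ n ∈ A, HH k (D i) (R i) n) + 2 ^ K * (2 * K) + 2 ^ K := by
    refine (abs_add_le _ _).trans (add_le_add ?_ ?_)
    · refine (abs_sum_le_sum_abs _ _).trans ((sum_le_sum h1).trans ?_)
      rw [← mul_sum, sum_comm]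
      have h4 : ∀ i ∈ (univ : Finset (Fin K)), ∑ n ∈ A, (2 / (3 ^ D i * b) * HH k (D i) (R i) n + 1 / b) =
          2 / (3 ^ D i * b) * ∑ n ∈ A, HH k (D i) (R i) n + #A * (1 / b) := by
        intro i _
        rw [sum_add_distrib, ← mul_sum, sum_const, nsmul_eq_mul]
      rw [sum_congr rfl h4, sum_add_distrib, sum_const, Finset.card_univ, Fintype.card_fin, nsmul_eq_mul, mul_add]
      have h5 : (#A : ℝ) * (1 / b) ≤ 2 := by
        rw [mul_one_div, div_le_iff₀ hb0]; exact cA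
      have h6 : (K : ℝ) * (#A * (1 / b)) ≤ 2 * K := by
        have : (0 : ℝ) ≤ K := by positivity
        nlinarith
      have h7 : (0 : ℝ) ≤ 2 ^ K := by positivity
      nlinarith [mul_le_mul_of_nonneg_left h6 h7]
    · rw [abs_mul]
      calc |b - (#A : ℝ)| * |P| ≤ 1 * 2 ^ K := mul_le_mul cA' hPb (abs_nonneg _) (by norm_num)
        _ = 2 ^ K := one_mul _
  calc _ ≤ (2 ^ K * (∑ i, 2 / (3 ^ D i * b) * ∑ n ∈ A, HH k (D i) (R i) n) + 2 ^ K * (2 * K) + 2 ^ K) / b := by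
        gcongr
    _ = 2 ^ K * (2 * K + 1) / b + (2 ^ K / b) * (∑ i, 2 / (3 ^ D i * b) * ∑ n ∈ A, HH k (D i) (R i) n) := by
        generalize (∑ i, 2 / (3 ^ D i * b) * ∑ n ∈ A, HH k (D i) (R i) n) = S
        ring
    _ = _ := by
        rw [mul_sum]
        congr 1
        apply sum_congr rfl
        intro i _
        have : (0 : ℝ) < 3 ^ D i := by positivity
        field_simp

theorem gamK_bound {K : ℕ} {F : Fin K → ℤ → ℝ} (hF : ∀ i, Iv (F i)) {k : ℕ} {D R : Fin K → ℕ} {κ X b η : ℝ} (hX : 1 ≤ X)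
    (hk : (2 : ℝ) ^ k ≤ X) (hb : 1 ≤ b) (hR : ∀ i, 3 ^ D i * b < R i + 1) (hR2 : ∀ i, (R i : ℝ) ≤ 3 ^ D i * b)
    (hη : 0 ≤ η) (h : ∀ i, ∀ r : ℤ, |r| ≤ R i → ns k (0, r) ≤ η) :
    |GGK F κ b X D - ccK F κ X D (fun _ => 0)| ≤
      2 ^ K * (2 * K + 1) / b + K * 2 ^ K * 18 * η + (K * 2 ^ K * 12 + 2) * (b + 1) / X := by
  have hq : ∀ i, (0 : ℝ) < 3 ^ D i := fun i => by positivity
  have hq1 : ∀ i, (1 : ℝ) ≤ 3 ^ D i := fun i => one_le_pow₀ (by norm_num)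
  have hb0 : 0 < b := by linarith
  have hX0 : 0 < X := by linarith
  have hqb : ∀ i, 1 ≤ 3 ^ D i * b := fun i => by nlinarith [hq1 i]
  have b1 : ∀ n : ℤ, |∏ i, F i (3 ^ D i * n)| ≤ 1 := by
    intro n
    rw [abs_prod]
    exact prod_le_one (fun _ _ => abs_nonneg _) (fun i _ => (hF i).bd _)
  unfold GGK ccK
  simp only [add_zero]
  rw [max_eq_left hX, ← sub_div, abs_div, abs_of_pos hX0, div_le_iff₀ hX0]
  -- integrability
  have i1 : IntervalIntegrable (fun x => ∏ i, Ph (F i) (3 ^ D i * x) (3 ^ D i * b)) volume (κ * X) (κ * X + X) := by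
    refine ii_bdd (M := 2 ^ K) ?_ (by linarith) ?_
    · exact Finset.measurable_prod _ fun i _ => (meas_Ph (F i) (3 ^ D i * b)).comp (measurable_const_mul _)
    · intro x _ _
      rw [abs_prod]
      calc ∏ i, |Ph (F i) (3 ^ D i * x) (3 ^ D i * b)| ≤ ∏ _i : Fin K, (2 : ℝ) :=
            prod_le_prod (fun _ _ => abs_nonneg _) (fun i _ => Ph_le (hF i) (hqb i))
        _ = 2 ^ K := by simp
  have i2 : IntervalIntegrable (fun x => (∑ n ∈ Finset.Ico ⌈x⌉ ⌈x + b⌉, ∏ i, F i (3 ^ D i * n)) / b) volume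
      (κ * X) (κ * X + X) := by
    apply ii_bdd (M := (b + 1) / b) ((meas_win _ b).div_const _) (by linarith)
    intro x _ _
    rw [abs_div, abs_of_pos hb0]
    gcongr
    have := win_bd zero_le_one b1 (x := x) (b := b) (by linarith)
    linarith
  have i3 : ∀ i, IntervalIntegrable (fun x => ∑ n ∈ Finset.Ico ⌈x⌉ ⌈x + b⌉, HH k (D i) (R i) n) volume
      (κ * X) (κ * X + X) := by
    intro i
    apply ii_bdd (M := (2 * R i + 1) * (b + 1)) (meas_win _ b) (by linarith)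
    intro x _ _
    exact win_bd (by positivity) (fun n => by rw [abs_of_nonneg (HH_nonneg _ _ _ _)]; exact HH_le k (D i) (R i) n)
      (by linarith)
  have i5 : ∀ i ∈ (univ : Finset (Fin K)), IntervalIntegrable (fun x => 2 ^ K * 2 / (3 ^ D i * b ^ 2) *
      ∑ n ∈ Finset.Ico ⌈x⌉ ⌈x + b⌉, HH k (D i) (R i) n) volume (κ * X) (κ * X + X) := fun i _ => (i3 i).const_mul _
  have i6 : IntervalIntegrable (fun x => ∑ i, 2 ^ K * 2 / (3 ^ D i * b ^ 2) *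
      ∑ n ∈ Finset.Ico ⌈x⌉ ⌈x + b⌉, HH k (D i) (R i) n) volume (κ * X) (κ * X + X) := by
    have h7 := IntervalIntegrable.sum (univ : Finset (Fin K)) i5
    have h8 : (fun x : ℝ => ∑ i, 2 ^ K * 2 / (3 ^ D i * b ^ 2) * ∑ n ∈ Finset.Ico ⌈x⌉ ⌈x + b⌉, HH k (D i) (R i) n) =
        ∑ i ∈ (univ : Finset (Fin K)), fun x : ℝ => 2 ^ K * 2 / (3 ^ D i * b ^ 2) *
          ∑ n ∈ Finset.Ico ⌈x⌉ ⌈x + b⌉, HH k (D i) (R i) n := by
      funext x
      rw [Finset.sum_apply]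
    rw [h8]
    exact h7
  have i4 : IntervalIntegrable (fun x => 2 ^ K * (2 * K + 1) / b + ∑ i, 2 ^ K * 2 / (3 ^ D i * b ^ 2) *
      ∑ n ∈ Finset.Ico ⌈x⌉ ⌈x + b⌉, HH k (D i) (R i) n) volume (κ * X) (κ * X + X) := intervalIntegrable_const.add i6
  -- the difference of the integrals
  have d1 : |(∫ x in (κ * X)..(κ * X + X), ∏ i, Ph (F i) (3 ^ D i * x) (3 ^ D i * b)) -
      ∫ x in (κ * X)..(κ * X + X), (∑ n ∈ Finset.Ico ⌈x⌉ ⌈x + b⌉, ∏ i, F i (3 ^ D i * n)) / b| ≤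
      ∫ x in (κ * X)..(κ * X + X), (2 ^ K * (2 * K + 1) / b + ∑ i, 2 ^ K * 2 / (3 ^ D i * b ^ 2) *
      ∑ n ∈ Finset.Ico ⌈x⌉ ⌈x + b⌉, HH k (D i) (R i) n) := by
    rw [← intervalIntegral.integral_sub i1 i2]
    refine (intervalIntegral.abs_integral_le_integral_abs (by linarith)).trans ?_
    apply intervalIntegral.integral_mono_on (by linarith) (i1.sub i2).abs i4
    intro x _
    exact PhK_prod hF k D R hb hR
  have d2 : (∫ x in (κ * X)..(κ * X + X), (2 ^ K * (2 * K + 1) / b + ∑ i, 2 ^ K * 2 / (3 ^ D i * b ^ 2) *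
      ∑ n ∈ Finset.Ico ⌈x⌉ ⌈x + b⌉, HH k (D i) (R i) n)) =
      2 ^ K * (2 * K + 1) / b * X + ∑ i, 2 ^ K * 2 / (3 ^ D i * b ^ 2) *
        ∫ x in (κ * X)..(κ * X + X), ∑ n ∈ Finset.Ico ⌈x⌉ ⌈x + b⌉, HH k (D i) (R i) n := by
    rw [intervalIntegral.integral_add intervalIntegrable_const i6, intervalIntegral.integral_const,
      intervalIntegral.integral_finsetSum i5, smul_eq_mul, show κ * X + X - κ * X = X by ring]
    simp only [intervalIntegral.integral_const_mul]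
    ring
  have d8 : ∀ i ∈ (univ : Finset (Fin K)), 2 ^ K * 2 / (3 ^ D i * b ^ 2) *
      (∫ x in (κ * X)..(κ * X + X), ∑ n ∈ Finset.Ico ⌈x⌉ ⌈x + b⌉, HH k (D i) (R i) n) ≤
      2 ^ K * (18 * η * X + 12 * (b + 1)) := by
    intro i _
    have hqi := hq i
    have hqbi := hqb i
    have hR2i := hR2 i
    have d3 := avg_shift (G := HH k (D i) (R i)) (B := 2 * R i + 1) (by positivity)
      (fun n => by rw [abs_of_nonneg (HH_nonneg _ _ _ _)]; exact HH_le k (D i) (R i) n) (A := κ * X) (X := X) (b := b)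
      hX0.le hb0.le
    have d4 := HH_sum (D := D i) (κ := κ) hX hk (h i)
    have d6 : (∫ x in (κ * X)..(κ * X + X), ∑ n ∈ Finset.Ico ⌈x⌉ ⌈x + b⌉, HH k (D i) (R i) n) ≤
        3 ^ D i * b * 3 * (b * (3 * X * η) + 2 * ((b + 1) * b)) := by
      have a1 := (abs_le.1 d3).2
      have a2 : b * ∑ n ∈ Finset.Ico ⌈κ * X⌉ ⌈κ * X + X⌉, HH k (D i) (R i) n ≤ b * ((2 * R i + 1) * (3 * X * η)) := by
        gcongr
      have a3 : (2 * (R i : ℝ) + 1) ≤ 3 ^ D i * b * 3 := by nlinarith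
      have a4 : (2 * (R i : ℝ) + 1) * (b * (3 * X * η) + 2 * ((b + 1) * b)) ≤
        3 ^ D i * b * 3 * (b * (3 * X * η) + 2 * ((b + 1) * b)) := by gcongr
      nlinarith
    have d7 : 2 ^ K * 2 / (3 ^ D i * b ^ 2) * (3 ^ D i * b * 3 * (b * (3 * X * η) + 2 * ((b + 1) * b))) =
        2 ^ K * (18 * η * X + 12 * (b + 1)) := by
      field_simp
      ring
    rw [← d7]
    gcongr
  have d8s := sum_le_sum d8
  rw [sum_const, Finset.card_univ, Fintype.card_fin, nsmul_eq_mul] at d8s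
  have d5 := avg_shift (G := fun n => ∏ i, F i (3 ^ D i * n)) (B := 1) zero_le_one b1 (A := κ * X)
    (X := X) (b := b) hX0.le hb0.le
  have d9 : |(∫ x in (κ * X)..(κ * X + X), (∑ n ∈ Finset.Ico ⌈x⌉ ⌈x + b⌉, ∏ i, F i (3 ^ D i * n)) / b) -
      ∑ n ∈ Finset.Ico ⌈κ * X⌉ ⌈κ * X + X⌉, ∏ i, F i (3 ^ D i * n)| ≤ 2 * (b + 1) := by
    rw [intervalIntegral.integral_div]
    have e : (∫ x in (κ * X)..(κ * X + X), ∑ n ∈ Finset.Ico ⌈x⌉ ⌈x + b⌉, ∏ i, F i (3 ^ D i * n)) / b -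
      ∑ n ∈ Finset.Ico ⌈κ * X⌉ ⌈κ * X + X⌉, ∏ i, F i (3 ^ D i * n) =
      ((∫ x in (κ * X)..(κ * X + X), ∑ n ∈ Finset.Ico ⌈x⌉ ⌈x + b⌉, ∏ i, F i (3 ^ D i * n)) -
      b * ∑ n ∈ Finset.Ico ⌈κ * X⌉ ⌈κ * X + X⌉, ∏ i, F i (3 ^ D i * n)) / b := by field_simp
    rw [e, abs_div, abs_of_pos hb0, div_le_iff₀ hb0]
    linarith
  have d10 := abs_sub_le (∫ x in (κ * X)..(κ * X + X), ∏ i, Ph (F i) (3 ^ D i * x) (3 ^ D i * b))
    (∫ x in (κ * X)..(κ * X + X), (∑ n ∈ Finset.Ico ⌈x⌉ ⌈x + b⌉, ∏ i, F i (3 ^ D i * n)) / b)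
    (∑ n ∈ Finset.Ico ⌈κ * X⌉ ⌈κ * X + X⌉, ∏ i, F i (3 ^ D i * n))
  have d11 : (2 ^ K * (2 * K + 1) / b + K * 2 ^ K * 18 * η + (K * 2 ^ K * 12 + 2) * (b + 1) / X) * X =
      2 ^ K * (2 * K + 1) / b * X + K * (2 ^ K * (18 * η * X + 12 * (b + 1))) + 2 * (b + 1) := by
    field_simp
    ring
  rw [d11]
  linarith

/-- (J7) window averages and forms. -/
theorem t_GAMK : S_GAMK := by
  intro K ε hε
  obtain ⟨C, hC, hrate⟩ := Pool.Agent.J4H39.ns_rate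
  set M : ℝ := 2 ^ K * (2 * K + 1) + K * 2 ^ K * 18 * (27 * C) + (K * 2 ^ K * 12 + 2) * 2 with hM
  have hM0 : 0 ≤ M := by positivity
  filter_upwards [eventually_ge_atTop 2, eventually_ge_atTop ⌈M / ε⌉₊] with w hw hwM
  intro F hF κ X b hκ hX hb hb2 D hD
  have hw1 : (1 : ℝ) ≤ w := by exact_mod_cast (by omega : 1 ≤ w)
  have hw2 : (2 : ℝ) ≤ w := by exact_mod_cast hw
  have hw0 : (0 : ℝ) < w := by linarith
  have hr := rho_le (w := w) (by omega)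
  have hr0 := rho_nonneg (w ^ 80)
  have hk1 : 1 ≤ w ^ 80 := Nat.one_le_pow _ _ (by omega)
  have hX1 : 1 ≤ X := le_trans (one_le_pow₀ (by norm_num)) hX
  have hb1 : 1 ≤ b := le_trans (one_le_pow₀ hw1) hb
  have n1 : ∀ i, ∀ r : ℤ, |r| ≤ ((⌊3 ^ D i * b⌋₊ : ℕ) : ℤ) →
      ns (w ^ 80) (0, r) ≤ C * (3 * (w : ℝ) ^ 27) * (9 / (w : ℝ) ^ 39) := by
    intro i r hr'
    have hqb : 0 ≤ 3 ^ D i * b := by positivity
    have h1 : |(r : ℝ)| ≤ 4 ^ (2 * w ^ 54) := by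
      have h2 : |(r : ℝ)| ≤ (⌊3 ^ D i * b⌋₊ : ℕ) := by exact_mod_cast hr'
      have h3 := Nat.floor_le hqb
      calc |(r : ℝ)| ≤ 3 ^ D i * b := h2.trans h3
        _ ≤ 4 ^ (w ^ 54) * 4 ^ (w ^ 54) := by
            have h4 : (3 : ℝ) ^ D i ≤ 4 ^ (w ^ 54) := by
              calc (3 : ℝ) ^ D i ≤ 4 ^ D i := pow_le_pow_left₀ (by norm_num) (by norm_num) _
                _ ≤ 4 ^ (w ^ 54) := pow_le_pow_right₀ (by norm_num)
                    ((hD i).trans (Nat.pow_le_pow_right (by omega) (by norm_num)))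
            have h5 : b ≤ 4 ^ (w ^ 54) := hb2.trans (pow_le_pow_left₀ (by norm_num) (by norm_num) _)
            exact mul_le_mul h4 h5 (by linarith) (by positivity)
        _ = 4 ^ (2 * w ^ 54) := by rw [← pow_add]; congr 1; ring
    refine (hrate (w ^ 80) hk1 0 (2 * w ^ 54) r h1).trans ?_
    have : √ (1 + ((0 : ℤ) : ℝ) ^ 2 + ((2 * w ^ 54 : ℕ) : ℝ)) ≤ 3 * (w : ℝ) ^ 27 := by
      rw [Real.sqrt_le_left (by positivity)]
      push_cast
      have e : ((w : ℝ) ^ 27) ^ 2 = (w : ℝ) ^ 54 := by ring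
      have h1 : (1 : ℝ) ≤ (w : ℝ) ^ 54 := one_le_pow₀ hw1
      nlinarith
    gcongr
  have hmain := gamK_bound hF (κ := κ) hX1 hX hb1 (R := fun i => ⌊3 ^ D i * b⌋₊) (fun i => Nat.lt_floor_add_one _)
    (fun i => Nat.floor_le (by positivity)) (by positivity) n1
  refine hmain.trans ?_
  have f1 : 1 / b ≤ 1 / w := by
    apply div_le_div_of_nonneg_left (by norm_num) hw0
    exact le_trans (le_self_pow₀ hw1 (by norm_num)) hb
  have f2 : C * (3 * (w : ℝ) ^ 27) * (9 / (w : ℝ) ^ 39) ≤ 27 * C / w := by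
    rw [← mul_div_assoc, div_le_div_iff₀ (by positivity) (by positivity)]
    calc C * (3 * (w : ℝ) ^ 27) * 9 * w = 27 * C * (w : ℝ) ^ 28 := by ring
      _ ≤ 27 * C * (w : ℝ) ^ 39 := by gcongr <;> norm_num
  have f3 : (b + 1) / X ≤ 2 / w := by
    rw [div_le_div_iff₀ (by linarith) hw0]
    have h1 : (w : ℝ) ≤ 2 ^ w := by exact_mod_cast Nat.lt_two_pow_self.le
    have h2 : w ^ 54 + w ≤ w ^ 80 := by
      calc w ^ 54 + w ≤ w ^ 54 + w ^ 54 := by
            gcongr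
            exact Nat.le_self_pow (by norm_num) w
        _ = 2 * w ^ 54 := by ring
        _ ≤ w * w ^ 54 := by gcongr
        _ = w ^ 55 := by ring
        _ ≤ w ^ 80 := Nat.pow_le_pow_right (by omega) (by norm_num)
    have h3 : b * w ≤ X := by
      calc b * w ≤ 2 ^ (w ^ 54) * 2 ^ w := by gcongr
        _ = 2 ^ (w ^ 54 + w) := by rw [pow_add]
        _ ≤ 2 ^ (w ^ 80) := pow_le_pow_right₀ (by norm_num) h2
        _ ≤ X := hX
    nlinarith
  have hMw : M / w ≤ ε := by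
    rw [div_le_iff₀ hw0]
    have h1 : M / ε ≤ w := (Nat.le_ceil _).trans (by exact_mod_cast hwM)
    rw [div_le_iff₀ hε] at h1
    linarith
  refine le_trans ?_ hMw
  calc _ = 2 ^ K * (2 * K + 1) * (1 / b) + K * 2 ^ K * 18 * (C * (3 * (w : ℝ) ^ 27) * (9 / (w : ℝ) ^ 39)) +
        (K * 2 ^ K * 12 + 2) * ((b + 1) / X) := by ring
    _ ≤ 2 ^ K * (2 * K + 1) * (1 / w) + K * 2 ^ K * 18 * (27 * C / w) + (K * 2 ^ K * 12 + 2) * (2 / w) := by
        gcongr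
    _ = M / w := by rw [hM]; ring

end Pool.Agent.J4H45.KP
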