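import Pool.Agent.J4H26.KP.Lm

/-! (N6) the central limit theorem as closeness of two binomial laws. -/

set_option autoImplicit false

namespace Pool.Agent.J4H45.KP

open Finset Filter Topology
open Pool.Agent.J4H26.AF (Fb pm pm_nonneg pm_sum pm_var Fb_rep)
open Pool.Agent.J4H26.KT (sw sw_rep)
open Pool.Agent.J4H26.KP (S_BIN S_CLT1)

/-- summation by parts with the indicators of half-lines -/
theorem steps (a y : ℕ → ℝ) (hy : Monotone y) (x : ℝ) (m : ℕ) : ∃ J ≤ m,
    ∑ j ∈ range m, (a j - a (j + 1)) * (if x ≤ y j then (1 : ℝ) else 0) = a J - a m ∧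
      (J < m → x ≤ y J) ∧ ∀ j < J, y j < x := by
  induction m with
  | zero => exact ⟨0, le_rfl, by simp, by simp, by simp⟩
  | succ m ih =>
    obtain ⟨J, hJ, h1, h2, h3⟩ := ih
    rw [sum_range_succ, h1]
    by_cases h : x ≤ y m
    · refine ⟨J, by omega, ?_, ?_, h3⟩
      · rw [if_pos h]
        ring
      · intro _
        rcases Nat.lt_or_ge J m with h4 | h4
        · exact h2 h4
        · have : J = m := by omega
          rw [this]
          exact h
    · have hJm : J = m := by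
        by_contra h5
        have h4 : J < m := by omega
        exact h ((h2 h4).trans (hy h4.le))
      refine ⟨m + 1, le_rfl, ?_, by omega, ?_⟩
      · rw [if_neg h, hJm]
        ring
      · intro j hj
        rcases Nat.lt_or_ge j m with h4 | h4
        · exact h3 j (by omega)
        · have : j = m := by omega
          rw [this]
          exact not_le.1 h

/-- mean value of a function of the normed binomial variable -/
noncomputable def Ex (ψ : ℝ → ℝ) (s : ℕ) : ℝ := ∑ l ∈ range (s + 1), pm s (l : ℕ) * ψ ((2 * (l : ℝ) - s) / √ s)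

theorem sw_Ex (φ : ℝ → ℝ) (s : ℕ) : sw (fun u : ℤ => φ ((2 * (u : ℝ) - s) / √ s)) s 0 = Ex φ s := by
  rw [sw_rep]
  unfold Ex
  apply sum_congr rfl
  intro l _
  rw [zero_add]
  push_cast
  rfl

theorem Ex_ind {s : ℕ} (hs : 1 ≤ s) (y : ℝ) :
    Ex (fun x => if x ≤ y then 1 else 0) s = Fb s ⌊(y * √ s + s) / 2⌋ := by
  rw [Fb_rep]
  unfold Ex
  have h0 : (0 : ℝ) < √ s := Real.sqrt_pos.2 (by exact_mod_cast hs)
  apply sum_congr rfl
  intro l _
  congr 1
  have key : (2 * (l : ℝ) - s) / √ s ≤ y ↔ (l : ℤ) ≤ ⌊(y * √ s + s) / 2⌋ := by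
    rw [div_le_iff₀ h0, Int.le_floor]
    push_cast
    constructor <;> intro h <;> linarith
  show (if (2 * (l : ℝ) - s) / √ s ≤ y then (1 : ℝ) else 0) = _
  by_cases h : (2 * (l : ℝ) - s) / √ s ≤ y
  · rw [if_pos h, if_pos (key.1 h)]
  · rw [if_neg h, if_neg (fun h2 => h (key.2 h2))]

theorem Ex_sq {s : ℕ} (hs : 1 ≤ s) (A B : ℝ) : Ex (fun x => A + B * x ^ 2) s = A + B := by
  have h0 : (0 : ℝ) < s := by exact_mod_cast hs
  unfold Ex
  have e : ∀ l ∈ range (s + 1), pm s (l : ℕ) * (A + B * ((2 * (l : ℝ) - s) / √ s) ^ 2) =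
      A * pm s (l : ℕ) + B / s * (pm s (l : ℕ) * (2 * (l : ℝ) - s) ^ 2) := by
    intro l _
    rw [div_pow, Real.sq_sqrt h0.le]
    ring
  rw [sum_congr rfl e, sum_add_distrib, ← mul_sum, ← mul_sum, pm_sum, pm_var]
  field_simp

theorem Ex_near (φ ψ g : ℝ → ℝ) (s : ℕ) (h : ∀ x, |φ x - ψ x| ≤ g x) : |Ex φ s - Ex ψ s| ≤ Ex g s := by
  unfold Ex
  rw [← sum_sub_distrib]
  refine (abs_sum_le_sum_abs _ _).trans (sum_le_sum fun l _ => ?_)
  rw [← mul_sub, abs_mul, abs_of_nonneg (pm_nonneg s _)]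
  exact mul_le_mul_of_nonneg_left (h _) (pm_nonneg s _)

theorem Ex_steps (c : ℝ) (b y : ℕ → ℝ) (m s : ℕ) :
    Ex (fun x => c + ∑ j ∈ range m, b j * (if x ≤ y j then (1 : ℝ) else 0)) s =
      c + ∑ j ∈ range m, b j * Ex (fun x => if x ≤ y j then 1 else 0) s := by
  unfold Ex
  have e : ∀ l ∈ range (s + 1), pm s (l : ℕ) * (c + ∑ j ∈ range m, b j * (if (2 * (l : ℝ) - s) / √ s ≤ y j then (1 : ℝ) else 0)) =
      c * pm s (l : ℕ) + ∑ j ∈ range m, b j * (pm s (l : ℕ) * (if (2 * (l : ℝ) - s) / √ s ≤ y j then (1 : ℝ) else 0)) := by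
    intro l _
    rw [mul_add, mul_sum]
    congr 1
    · ring
    · apply sum_congr rfl
      intro j _
      ring
  rw [sum_congr rfl e, sum_add_distrib, ← mul_sum, pm_sum, mul_one, sum_comm]
  congr 1
  apply sum_congr rfl
  intro j _
  rw [mul_sum]

theorem t_CLT1 : S_BIN → S_CLT1 := by
  intro hB M ε hM hε
  obtain ⟨η, hη0⟩ : ∃ η, η = ε / (4 * M) := ⟨_, rfl⟩
  have hη : 0 < η := by rw [hη0]; positivity
  have hMη : M * η = ε / 4 := by rw [hη0]; field_simp
  obtain ⟨n, hn⟩ := exists_nat_gt ((16 / ε + 1) / η)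
  have hn0 : (0 : ℝ) < n := lt_trans (by positivity) hn
  have hηn : 16 / ε + 1 ≤ η * n := by
    rw [div_lt_iff₀ hη] at hn
    linarith
  have hηn1 : 1 ≤ η * n := le_trans (by have : 0 < 16 / ε := by positivity
                                        linarith) hηn
  have hηn2 : 2 / (η * n) ^ 2 ≤ ε / 8 := by
    rw [div_le_iff₀ (by positivity)]
    have h1 : 16 / ε ≤ (η * n) ^ 2 := by nlinarith
    rw [div_le_iff₀ hε] at h1
    linarith
  obtain ⟨t₀, ht₀⟩ := hB (ε / (8 * n)) (by positivity)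
  obtain ⟨s₁, hs₁⟩ := exists_nat_gt ((16 * n / ε) ^ 2)
  refine ⟨max (max t₀ s₁) 1, fun s s' hs hs' φ hφ1 hφ => ?_⟩
  simp only [max_le_iff] at hs hs'
  obtain ⟨y, hy0⟩ : ∃ y : ℕ → ℝ, y = fun (j : ℕ) => η * ((j : ℝ) - n) := ⟨_, rfl⟩
  have hyj : ∀ j, y j = η * ((j : ℝ) - n) := fun j => by rw [hy0]
  have hymono : Monotone y := by
    intro i j hij
    rw [hyj, hyj]
    have : (i : ℝ) ≤ j := by exact_mod_cast hij
    exact mul_le_mul_of_nonneg_left (by linarith) hη.le
  obtain ⟨ψ, hψ⟩ : ∃ ψ : ℝ → ℝ, ψ = fun x => φ (y (2 * n)) + ∑ j ∈ range (2 * n),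
    (φ (y j) - φ (y (j + 1))) * (if x ≤ y j then (1 : ℝ) else 0) := ⟨_, rfl⟩
  have hnear : ∀ x, |φ x - ψ x| ≤ (M * η + ε) + 2 / (η * n) ^ 2 * x ^ 2 := by
    intro x
    obtain ⟨J, hJ, h1, h2, h3⟩ := steps (fun j => φ (y j)) y hymono x (2 * n)
    have e : ψ x = φ (y J) := by
      rw [hψ]
      simp only at h1 ⊢
      rw [h1]
      ring
    rw [e]
    by_cases hx : |x| ≤ η * n
    · have hxl := abs_le.1 hx
      have hd : |x - y J| ≤ η := by
        have h4 : x ≤ y J := by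
          rcases Nat.lt_or_ge J (2 * n) with h5 | h5
          · exact h2 h5
          · have h6 : J = 2 * n := by omega
            rw [h6, hyj]
            push_cast
            have : η * (2 * (n : ℝ) - n) = η * n := by ring
            rw [this]
            exact hxl.2
        rw [abs_sub_comm, abs_of_nonneg (by linarith)]
        rcases Nat.eq_zero_or_pos J with h5 | h5
        · rw [h5, hyj]
          push_cast
          have : η * ((0 : ℝ) - n) = -(η * n) := by ring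
          rw [this]
          linarith [hxl.1]
        · have h6 := h3 (J - 1) (by omega)
          rw [hyj] at h6 ⊢
          have h7 : ((J - 1 : ℕ) : ℝ) = (J : ℝ) - 1 := by
            rw [Nat.cast_sub h5]
            norm_num
          rw [h7] at h6
          linarith
      have h8 := hφ x (y J)
      have h9 := mul_le_mul_of_nonneg_left hd hM.le
      have h10 : 0 ≤ 2 / (η * n) ^ 2 * x ^ 2 := by positivity
      linarith
    · have h4 := not_le.1 hx
      have h5 : 1 * 2 ≤ 2 / (η * n) ^ 2 * x ^ 2 := by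
        rw [div_mul_eq_mul_div, le_div_iff₀ (by positivity)]
        have h6 : (η * n) ^ 2 ≤ |x| ^ 2 := by
          apply pow_le_pow_left₀ (by positivity) h4.le
        rw [sq_abs] at h6
        linarith
      have h6 := abs_le.1 (hφ1 x)
      have h7 := abs_le.1 (hφ1 (y J))
      have h8 : |φ x - φ (y J)| ≤ 2 := by
        rw [abs_le]
        constructor <;> linarith
      have h9 : 0 ≤ M * η + ε := by positivity
      linarith
  have hE : ∀ s : ℕ, 1 ≤ s → |Ex φ s - Ex ψ s| ≤ 11 / 8 * ε := by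
    intro s hs
    refine (Ex_near φ ψ _ s hnear).trans ?_
    rw [Ex_sq hs _ _, hMη]
    linarith
  have hψs : ∀ s : ℕ, 1 ≤ s → Ex ψ s = φ (y (2 * n)) + ∑ j ∈ range (2 * n),
      (φ (y j) - φ (y (j + 1))) * Fb s ⌊(y j * √ s + s) / 2⌋ := by
    intro s hs
    rw [hψ, Ex_steps _ (fun j => φ (y j) - φ (y (j + 1)))]
    congr 1
    apply sum_congr rfl
    intro j _
    rw [Ex_ind hs]
  have hsm : ∀ s : ℕ, s₁ ≤ s → 1 ≤ s → 2 / √ (s : ℝ) ≤ ε / (8 * n) := by
    intro s h1 h2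
    have h0 : (0 : ℝ) < √ s := Real.sqrt_pos.2 (by exact_mod_cast h2)
    have h3 : 16 * n / ε ≤ √ (s : ℝ) := by
      apply Real.le_sqrt_of_sq_le
      have : (s₁ : ℝ) ≤ s := by exact_mod_cast h1
      linarith
    rw [div_le_iff₀ h0]
    rw [div_le_iff₀ hε] at h3
    rw [div_mul_eq_mul_div, le_div_iff₀ (by positivity)]
    linarith
  have hgrid : ∀ s : ℕ, s₁ ≤ s → 1 ≤ s → ∀ x : ℝ,
      x - ε / (8 * n) ≤ (2 * ((⌊(x * √ s + s) / 2⌋ : ℤ) : ℝ) - s) / √ s ∧
      (2 * ((⌊(x * √ s + s) / 2⌋ : ℤ) : ℝ) - s) / √ s ≤ x := by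
    intro s h1 h2 x
    have h0 : (0 : ℝ) < √ s := Real.sqrt_pos.2 (by exact_mod_cast h2)
    have h3 := Int.floor_le ((x * √ s + s) / 2)
    have h4 := Int.lt_floor_add_one ((x * √ s + s) / 2)
    have h5 := hsm s h1 h2
    constructor
    · rw [le_div_iff₀ h0]
      rw [div_le_iff₀ h0] at h5
      have : (x - ε / (8 * n)) * √ s = x * √ s - ε / (8 * n) * √ s := by ring
      rw [this]
      linarith
    · rw [div_le_iff₀ h0]
      linarith
  have hF : ∀ x : ℝ, |Fb s ⌊(x * √ s + s) / 2⌋ - Fb s' ⌊(x * √ s' + s') / 2⌋| ≤ 2 * (ε / (8 * n)) := by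
    intro x
    have h1 := ht₀ s s' hs.1.1 hs'.1.1 ⌊(x * √ s + s) / 2⌋ ⌊(x * √ s' + s') / 2⌋
    have h2 := hgrid s hs.1.2 hs.2 x
    have h3 := hgrid s' hs'.1.2 hs'.2 x
    have h4 : |(2 * ((⌊(x * √ s + s) / 2⌋ : ℤ) : ℝ) - s) / √ s - (2 * ((⌊(x * √ s' + s') / 2⌋ : ℤ) : ℝ) - s') / √ s'| ≤
        ε / (8 * n) := by
      rw [abs_le]
      constructor <;> linarith [h2.1, h2.2, h3.1, h3.2]
    linarith
  have hmid : |Ex ψ s - Ex ψ s'| ≤ ε := by
    rw [hψs s hs.2, hψs s' hs'.2, add_sub_add_left_eq_sub, ← sum_sub_distrib]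
    refine (abs_sum_le_sum_abs _ _).trans ?_
    have h1 : ∀ j ∈ range (2 * n), |(φ (y j) - φ (y (j + 1))) * Fb s ⌊(y j * √ s + s) / 2⌋ -
        (φ (y j) - φ (y (j + 1))) * Fb s' ⌊(y j * √ s' + s') / 2⌋| ≤ 2 * (2 * (ε / (8 * n))) := by
      intro j _
      rw [← mul_sub, abs_mul]
      have h6 := abs_le.1 (hφ1 (y j))
      have h7 := abs_le.1 (hφ1 (y (j + 1)))
      have h8 : |φ (y j) - φ (y (j + 1))| ≤ 2 := by
        rw [abs_le]
        constructor <;> linarith
      exact mul_le_mul h8 (hF _) (abs_nonneg _) (by norm_num)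
    refine (sum_le_sum h1).trans ?_
    rw [sum_const, card_range, nsmul_eq_mul]
    push_cast
    have : 2 * (n : ℝ) * (2 * (2 * (ε / (8 * n)))) = ε := by
      field_simp
      norm_num
    rw [this]
  rw [sw_Ex, sw_Ex]
  have h1 := hE s hs.2
  have h2 := hE s' hs'.2
  rw [abs_le] at h1 h2 hmid ⊢
  constructor <;> linarith

end Pool.Agent.J4H45.KP
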