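import Pool.Agent.J4H39.L3
import Pool.Agent.J4H26.KP.Lm

/-! (N1) the distribution functions of the binomial laws are close to each other. -/

set_option autoImplicit false

namespace Pool.Agent.J4H45.KP

open Finset Filter Topology
open Pool.Agent.J4H39 (Erf U Sm p U_erf U_eq_Sm Sm_succ U_neg Erf_lip Erf_mono p_parity p_succ)
open Pool.Agent.J4H26.AF (Fb pm pm_symm Fb_diff pm_le pm_nonneg Fb_succ Fb_zero pm_succ pm_zero)
open Pool.Agent.J4H26.KP (S_BIN)

theorem Fb_symm (t : ℕ) : ∀ d : ℤ, Fb t d + Fb t (t - 1 - d) = 1 := by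
  induction t with
  | zero =>
    intro d
    rw [Fb_zero, Fb_zero]
    push_cast
    split_ifs <;> first | omega | norm_num
  | succ t ih =>
    intro d
    rw [Fb_succ, Fb_succ]
    have h1 := ih d
    have h2 := ih (d - 1)
    have e1 : ((t + 1 : ℕ) : ℤ) - 1 - d = (t : ℤ) - 1 - (d - 1) := by push_cast; ring
    have e2 : ((t + 1 : ℕ) : ℤ) - 1 - d - 1 = (t : ℤ) - 1 - d := by push_cast; ring
    rw [e2, e1]
    linarith

theorem p_pm (t : ℕ) : ∀ d : ℤ, p t (2 * d - t) = pm t d := by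
  induction t with
  | zero =>
    intro d
    rw [pm_zero]
    unfold p
    by_cases h : d = 0
    · rw [if_pos h, if_pos (by rw [h]; norm_num)]
    · rw [if_neg h, if_neg (by push_cast; omega)]
  | succ t ih =>
    intro d
    rw [p_succ, pm_succ, ← ih d, ← ih (d - 1)]
    have e1 : 2 * d - ((t + 1 : ℕ) : ℤ) + 1 = 2 * d - t := by push_cast; ring
    have e2 : 2 * d - ((t + 1 : ℕ) : ℤ) - 1 = 2 * (d - 1) - t := by push_cast; ring
    rw [e1, e2]

/-- exact relation, right half -/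
theorem Fb_Sm (t : ℕ) : ∀ (e : ℕ) (d : ℤ), 2 * d - t = e → 2 * Fb t d = 1 + Sm t e + pm t d
  | 0, d, h => by
    have h1 := Fb_symm t d
    have h2 := Fb_diff t d
    have e1 : (t : ℤ) - 1 - d = d - 1 := by push_cast at h; omega
    rw [e1] at h1
    have h3 : Sm t 0 = 0 := rfl
    rw [h3]
    linarith
  | 1, d, h => by
    have h1 := Fb_symm t (d - 1)
    have h2 := Fb_diff t d
    have e1 : (t : ℤ) - 1 - (d - 1) = d - 1 := by push_cast at h; omega
    rw [e1] at h1
    have h3 : Sm t 1 = pm t d := by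
      rw [Sm_succ]
      have h4 : Sm t 0 = 0 := rfl
      have h5 : p t ((0 : ℕ) : ℤ) = 0 := p_parity t _ (by push_cast at h ⊢; omega)
      have h6 : p t (-(((0 : ℕ) : ℤ) + 1)) = pm t d := by
        rw [← pm_symm, ← p_pm]
        congr 1
        push_cast at h ⊢
        omega
      rw [h4, h5, h6]
      ring
    rw [h3]
    linarith
  | e + 2, d, h => by
    have ih := Fb_Sm t e (d - 1) (by push_cast at h ⊢; omega)
    have h2 := Fb_diff t d
    have h3 : Sm t (e + 2) = Sm t e + pm t (d - 1) + pm t d := by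
      rw [Sm_succ, Sm_succ]
      have h4 : p t (-((e : ℤ) + 1)) = 0 := p_parity t _ (by push_cast at h ⊢; omega)
      have h5 : p t ((e + 1 : ℕ) : ℤ) = 0 := p_parity t _ (by push_cast at h ⊢; omega)
      have h6 : p t (-(((e + 1 : ℕ) : ℤ) + 1)) = pm t d := by
        rw [← pm_symm, ← p_pm]
        congr 1
        push_cast at h ⊢
        omega
      have h7 : p t (e : ℤ) = pm t (d - 1) := by
        rw [← p_pm]
        congr 1
        push_cast at h ⊢
        omega
      rw [h4, h5, h6, h7]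
      ring
    rw [h3]
    linarith

theorem Erf_neg (y : ℝ) : Erf (-y) = -Erf y := by
  unfold Erf
  have h : ∫ u in (0 : ℝ)..(-y), Real.exp (-u ^ 2) = -∫ u in (0 : ℝ)..y, Real.exp (-u ^ 2) := by
    have h1 := intervalIntegral.integral_comp_neg (a := 0) (b := y) (fun u : ℝ => Real.exp (-u ^ 2))
    simp only [neg_sq, neg_zero] at h1
    rw [h1, intervalIntegral.integral_symm]
  rw [h]
  ring

noncomputable def Ph (x : ℝ) : ℝ := 1 / 2 + Erf (x / √ 2) / 2

theorem Ph_neg (x : ℝ) : Ph (-x) = 1 - Ph x := by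
  unfold Ph
  rw [neg_div, Erf_neg]
  ring

theorem Ph_lip (x x' : ℝ) : |Ph x - Ph x'| ≤ |x - x'| := by
  have key : ∀ a b : ℝ, a ≤ b → Ph a ≤ Ph b ∧ Ph b - Ph a ≤ b - a := by
    intro a b hab
    have h2 : (0 : ℝ) < √ 2 := by positivity
    have h0 : a / √ 2 ≤ b / √ 2 := div_le_div_of_nonneg_right hab h2.le
    have h1 := Erf_lip h0
    have h3 := Erf_mono h0
    have h4 : b / √ 2 - a / √ 2 ≤ b - a := by
      rw [← sub_div]
      apply div_le_self (by linarith)
      rw [Real.one_le_sqrt]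
      norm_num
    unfold Ph
    constructor <;> linarith
  rcases le_total x x' with h | h
  · obtain ⟨h1, h2⟩ := key x x' h
    rw [abs_sub_comm, abs_sub_comm x x', abs_of_nonneg (by linarith), abs_of_nonneg (by linarith)]
    exact h2
  · obtain ⟨h1, h2⟩ := key x' x h
    rw [abs_of_nonneg (by linarith), abs_of_nonneg (by linarith)]
    exact h2

/-- the central limit theorem, uniform -/
theorem Fb_Ph {ε : ℝ} (hε : 0 < ε) : ∃ t₀ : ℕ, ∀ t ≥ t₀, ∀ d : ℤ, |Fb t d - Ph ((2 * (d : ℝ) - t) / √ t)| ≤ ε := by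
  obtain ⟨q₀, hq₀⟩ := U_erf (show 0 < ε / 2 by positivity)
  have hsm : ∀ᶠ t : ℕ in atTop, (1 : ℝ) / √ t ≤ ε / 2 := by
    have h3 : Tendsto (fun q : ℕ => (1 : ℝ) / √ q) atTop (𝓝 0) :=
      tendsto_const_nhds.div_atTop (Real.tendsto_sqrt_atTop.comp tendsto_natCast_atTop_atTop)
    exact h3.eventually (ge_mem_nhds (by positivity))
  obtain ⟨t₁, ht₁⟩ := eventually_atTop.1 hsm
  refine ⟨max (max t₁ q₀) 1, fun t ht d => ?_⟩
  simp only [ge_iff_le, max_le_iff] at ht
  -- the right half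
  have right : ∀ d : ℤ, (t : ℤ) ≤ 2 * d → |Fb t d - Ph ((2 * (d : ℝ) - t) / √ t)| ≤ ε / 2 := by
    intro d hd
    obtain ⟨e, he⟩ := Int.eq_ofNat_of_zero_le (show 0 ≤ 2 * d - t by omega)
    have h1 := Fb_Sm t e d he
    rw [← U_eq_Sm] at h1
    have h2 := hq₀ t ht.1.2 e
    have h3 := (pm_le ht.2 d).trans (ht₁ t ht.1.1)
    have h4 := pm_nonneg t d
    have her : (2 * (d : ℝ) - t) = (e : ℝ) := by exact_mod_cast he
    have h5 : (e : ℝ) / √ t / √ 2 = e / √ (2 * t) := by
      rw [div_div, mul_comm (√ (t : ℝ)), ← Real.sqrt_mul (by norm_num)]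
    unfold Ph
    rw [her, h5]
    rw [abs_le] at h2 ⊢
    constructor <;> linarith
  rcases le_total (t : ℤ) (2 * d) with h | h
  · exact (right d h).trans (by linarith)
  · have h1 := right (t - d) (by omega)
    have h2 := Fb_symm t d
    have h3 := Fb_diff t (t - d)
    have e1 : (t : ℤ) - d - 1 = t - 1 - d := by ring
    rw [e1] at h3
    have h4 := (pm_le ht.2 (t - d)).trans (ht₁ t ht.1.1)
    have h5 := pm_nonneg t (t - d)
    have e2 : (2 * (((t : ℤ) - d : ℤ) : ℝ) - t) / √ t = -((2 * (d : ℝ) - t) / √ t) := by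
      push_cast
      ring
    rw [e2, Ph_neg] at h1
    rw [abs_le] at h1 ⊢
    constructor <;> linarith

theorem t_BIN : S_BIN := by
  intro ε hε
  obtain ⟨t₀, ht₀⟩ := Fb_Ph (show 0 < ε / 2 by positivity)
  refine ⟨t₀, fun t t' ht ht' d d' => ?_⟩
  have h1 := ht₀ t ht d
  have h2 := ht₀ t' ht' d'
  have h3 := Ph_lip ((2 * (d : ℝ) - t) / √ t) ((2 * (d' : ℝ) - t') / √ t')
  rw [abs_le] at h1 h2 h3 ⊢
  constructor <;> linarith

end Pool.Agent.J4H45.KP
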