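import Mathlib
import Pool.Agent.J4H26.KP.Q
import Pool.Agent.J4H95.PC.Gam

set_option autoImplicit false

/-! Project KP (J12): labels with merged forms. -/

namespace Pool.Agent.J4H45.KP

open Finset Filter Real
open Pool.Agent.J4H39 (T od ex pb ns rn stP stK Rel par GK GS Cm th0 exK tN rel_shift' rel_shift_m par_eq)
open Pool.Agent.J4H26.PC (Iv Ph VV Cent)
open Pool.Agent.J4H26.KP
open Pool.Agent.J4H95.PC (sum_Ico_diff)

/-- the classes of an equivalence relation on `Fin K` -/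
theorem grp {K : ℕ} (p : Fin K → Fin K → Prop) (hr : ∀ i, p i i) (hs : ∀ i j, p i j → p j i)
    (ht : ∀ i j k, p i j → p j k → p i k) :
    ∃ (K' : ℕ) (B : Fin K' → Finset (Fin K)) (rep : Fin K' → Fin K), K' ≤ K ∧ (∀ b i, i ∈ B b ↔ p (rep b) i) ∧
      (∀ b b', b ≠ b' → ¬ p (rep b) (rep b')) ∧ (∀ i, ∃ b, p (rep b) i) ∧
      (∀ G : Fin K → ℝ, ∏ i, G i = ∏ b, ∏ i ∈ B b, G i) ∧ (∀ m : Finset (Fin K) → ℝ, mR m p = ∏ b, m (B b)) := by
  classical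
  obtain ⟨g, hg⟩ : ∃ g : Fin K → Finset (Fin K), g = fun i => univ.filter (fun j => p i j) := ⟨_, rfl⟩
  obtain ⟨S, hS⟩ : ∃ S : Finset (Finset (Fin K)), S = univ.image g := ⟨_, rfl⟩
  have hmem : ∀ i j, j ∈ g i ↔ p i j := by intro i j; rw [hg]; simp
  have hgeq : ∀ i j, p i j → g i = g j := by
    intro i j hij
    ext k
    rw [hmem, hmem]
    exact ⟨fun h => ht _ _ _ (hs _ _ hij) h, fun h => ht _ _ _ hij h⟩
  have hmS : ∀ B, B ∈ S ↔ ∃ i, g i = B := by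
    intro B; rw [hS, Finset.mem_image]; simp
  let e : Fin #S ≃ S := S.equivFin.symm
  have hrep : ∀ b : Fin #S, ∃ i, g i = (e b).1 := fun b => (hmS _).1 (e b).2
  choose rep hrep using hrep
  refine ⟨#S, fun b => (e b).1, rep, ?_, ?_, ?_, ?_, ?_, ?_⟩
  · rw [hS]
    exact card_image_le.trans (by simp)
  · intro b i
    show i ∈ (e b).1 ↔ _
    rw [← hrep b, hmem]
  · intro b b' hne hp
    apply hne
    apply e.injective
    apply Subtype.ext
    rw [← hrep b, ← hrep b', hgeq _ _ hp]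
  · intro i
    have hi : g i ∈ S := by rw [hS]; exact mem_image_of_mem _ (mem_univ i)
    refine ⟨e.symm ⟨g i, hi⟩, ?_⟩
    have h := hrep (e.symm ⟨g i, hi⟩)
    rw [Equiv.apply_symm_apply] at h
    rw [← hmem, h, hmem]
    exact hr i
  · intro G
    have h1 : ∏ b, ∏ i ∈ (e b).1, G i = ∏ B : S, ∏ i ∈ B.1, G i := Equiv.prod_comp e (fun B : S => ∏ i ∈ B.1, G i)
    have h2 : ∏ B : S, ∏ i ∈ B.1, G i = ∏ B ∈ S, ∏ i ∈ B, G i := Finset.prod_coe_sort S (fun B => ∏ i ∈ B, G i)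
    rw [h1, h2]
    have h3 : ∀ i ∈ (univ : Finset (Fin K)), g i ∈ S := fun i _ => by rw [hS]; exact mem_image_of_mem _ (mem_univ i)
    rw [← Finset.prod_fiberwise_of_maps_to h3 G]
    apply Finset.prod_congr rfl
    intro B hB
    rw [hS, Finset.mem_image] at hB
    obtain ⟨i, _, rfl⟩ := hB
    apply Finset.prod_congr _ (fun _ _ => rfl)
    ext j
    rw [Finset.mem_filter, hmem]
    constructor
    · rintro ⟨_, h⟩
      rw [← hmem, ← h, hmem]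
      exact hr j
    · intro h
      exact ⟨mem_univ j, (hgeq _ _ h).symm⟩
  · intro m
    have h1 : ∏ b, m (e b).1 = ∏ B : S, m B.1 := Equiv.prod_comp e (fun B : S => m B.1)
    rw [h1, Finset.prod_coe_sort S m, hS, hg]
    rfl

theorem rel_dvd {s : ℤ × ℤ} {y y' z z' : ℤ} (h : Rel s y y') (h' : Rel s z z') : (3 : ℤ) ^ (-s.1).toNat ∣ y - z := by
  rcases le_or_gt 0 s.1 with h0 | h0
  · have : (-s.1).toNat = 0 := by omega
    rw [this, pow_zero]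
    exact one_dvd _
  · have h1 : s.1.toNat = 0 := by omega
    unfold Pool.Agent.J4H39.Rel at h h'
    rw [h1, pow_zero, one_mul] at h h'
    exact ⟨y' - z', by rw [mul_sub]; linarith⟩

theorem neg_toNat_le {K : ℕ} (s : Fin K → ℤ × ℤ) (i : Fin K) : (-(s i).1).toNat ≤ EK s :=
  le_sup (f := fun i => (-(s i).1).toNat) (mem_univ i)

theorem EK_attained {K : ℕ} (s : Fin K → ℤ × ℤ) (i : Fin K) : ∃ j, (-(s j).1).toNat = EK s := by
  obtain ⟨j, _, hj⟩ := Finset.exists_mem_eq_sup (univ : Finset (Fin K)) ⟨i, mem_univ i⟩ (fun i => (-(s i).1).toNat)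
  exact ⟨j, hj.symm⟩

/-- rebase: the sum over the companions is a sum over an arithmetic progression -/
theorem rebase {K : ℕ} (F : Fin K → ℤ → ℝ) (A B : ℝ) {s : Fin K → ℤ × ℤ} (hs : Cm s) (i₀ : Fin K) :
    ∃ (y₀ : ℤ) (ρ : Fin K → ℤ), 0 ≤ y₀ ∧ y₀ < 3 ^ EK s ∧ (∀ i, Rel (s i) y₀ (ρ i)) ∧
      (open Classical in ∑ y ∈ Finset.Ico ⌈A⌉ ⌈B⌉, if (∀ i, ∃ y' : ℤ, Rel (s i) y y') then ∏ i, F i (par (s i) y) else 0) =
      ∑ u ∈ Finset.Ico ⌈(A - y₀) / 3 ^ EK s⌉ ⌈(B - y₀) / 3 ^ EK s⌉,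
        ∏ i, F i (3 ^ (EK s - (-(s i).1).toNat + (s i).1.toNat) * u + ρ i) := by
  classical
  obtain ⟨y₁, hy₁⟩ := hs
  have hq : (0 : ℤ) < 3 ^ EK s := by positivity
  have hqR : (0 : ℝ) < 3 ^ EK s := by positivity
  have h0 : ∀ i, ∃ y' : ℤ, Rel (s i) (y₁ % 3 ^ EK s) y' := by
    intro i
    obtain ⟨y', hy'⟩ := hy₁ i
    have h := rel_shift' hy' (neg_toNat_le s i) (-(y₁ / 3 ^ EK s))
    have e : y₁ + 3 ^ EK s * -(y₁ / 3 ^ EK s) = y₁ % 3 ^ EK s := by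
      have := Int.emod_add_mul_ediv y₁ (3 ^ EK s)
      linarith
    rwa [e] at h
  choose ρ hρ using h0
  refine ⟨y₁ % 3 ^ EK s, ρ, Int.emod_nonneg _ hq.ne', Int.emod_lt_of_pos _ hq, hρ, ?_⟩
  set y₀ := y₁ % 3 ^ EK s with hy₀
  rw [← Finset.sum_filter]
  symm
  apply Finset.sum_bij (fun u _ => y₀ + 3 ^ EK s * u)
  · intro u hu
    rw [Finset.mem_Ico] at hu
    rw [Finset.mem_filter, Finset.mem_Ico]
    refine ⟨⟨?_, ?_⟩, fun i => rel_shift' (hρ i) (neg_toNat_le s i) u⟩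
    · have h1 := Int.ceil_le.1 hu.1
      rw [div_le_iff₀ hqR] at h1
      rw [Int.ceil_le]
      push_cast
      linarith
    · have h1 := Int.lt_ceil.1 hu.2
      rw [lt_div_iff₀ hqR] at h1
      rw [Int.lt_ceil]
      push_cast
      linarith
  · intro u _ u' _ h
    have h1 : 3 ^ EK s * u = 3 ^ EK s * u' := by linarith
    exact mul_left_cancel₀ hq.ne' h1
  · intro y hy
    rw [Finset.mem_filter, Finset.mem_Ico] at hy
    obtain ⟨⟨h1, h2⟩, h3⟩ := hy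
    obtain ⟨j, hj⟩ := EK_attained s i₀
    obtain ⟨y', hy'⟩ := h3 j
    have h4 := rel_dvd hy' (hρ j)
    rw [hj] at h4
    obtain ⟨u, hu⟩ := h4
    have hyu : y = y₀ + 3 ^ EK s * u := by linarith
    refine ⟨u, ?_, hyu.symm⟩
    have h5 := Int.ceil_le.1 h1
    have h6 := Int.lt_ceil.1 h2
    rw [hyu] at h5 h6
    push_cast at h5 h6
    rw [Finset.mem_Ico, Int.ceil_le, Int.lt_ceil, div_le_iff₀ hqR, lt_div_iff₀ hqR]
    constructor <;> linarith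
  · intro u _
    apply Finset.prod_congr rfl
    intro i _
    have h1 := rel_shift_m (hρ i) (neg_toNat_le s i) u
    rw [par_eq h1, add_comm]

/-- powers of different exponents -/
theorem grow {a b c : ℝ} (ha : 0 ≤ a) (hab : a < b) (hc : 0 ≤ c) : ∀ᶠ L : ℕ in atTop, c * (L : ℝ) ^ a + c ≤ (L : ℝ) ^ b := by
  have h1 : Tendsto (fun L : ℕ => (L : ℝ) ^ (b - a)) atTop atTop :=
    (tendsto_rpow_atTop (by linarith)).comp tendsto_natCast_atTop_atTop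
  filter_upwards [h1.eventually_ge_atTop (2 * c), eventually_ge_atTop 1] with L hL hL1
  have hL1' : (1 : ℝ) ≤ L := by exact_mod_cast hL1
  have h2 : (1 : ℝ) ≤ (L : ℝ) ^ a := one_le_rpow hL1' ha
  have h3 : (L : ℝ) ^ b = (L : ℝ) ^ a * (L : ℝ) ^ (b - a) := by
    rw [← rpow_add (by linarith)]; congr 1; ring
  rw [h3]
  nlinarith

theorem rho_bound {s : ℤ × ℤ} {y₀ ρ : ℤ} {E N0 M0 P0 : ℕ} (h : Rel s y₀ ρ) (h0 : 0 ≤ y₀) (h1 : y₀ < 3 ^ E) (hE : E ≤ N0)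
    (ha : s.1.toNat ≤ N0) (hr : |s.2| ≤ 4 ^ M0) (hN : 2 * N0 + 1 ≤ P0) (hM : M0 + 1 ≤ P0) : |ρ| ≤ 4 ^ P0 := by
  have h2 : (1 : ℤ) ≤ 3 ^ (-s.1).toNat := one_le_pow₀ (by norm_num)
  have h3 : |ρ| ≤ 3 ^ (-s.1).toNat * |ρ| := by nlinarith [abs_nonneg ρ]
  have h4 : 3 ^ (-s.1).toNat * |ρ| = |3 ^ s.1.toNat * y₀ + s.2| := by
    have h' : (3 : ℤ) ^ (-s.1).toNat * ρ = 3 ^ s.1.toNat * y₀ + s.2 := h
    rw [← h', abs_mul, abs_of_pos (by positivity : (0 : ℤ) < 3 ^ (-s.1).toNat)]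
  have h5 : |3 ^ s.1.toNat * y₀ + s.2| ≤ 3 ^ s.1.toNat * 3 ^ E + 4 ^ M0 := by
    refine (abs_add_le _ _).trans (add_le_add ?_ hr)
    rw [abs_mul, abs_of_nonneg h0, abs_of_pos (by positivity : (0 : ℤ) < 3 ^ s.1.toNat)]
    exact mul_le_mul_of_nonneg_left h1.le (by positivity)
  have h6 : (3 : ℤ) ^ s.1.toNat * 3 ^ E ≤ 4 ^ (2 * N0) := by
    rw [← pow_add]
    calc (3 : ℤ) ^ (s.1.toNat + E) ≤ 4 ^ (s.1.toNat + E) := pow_le_pow_left₀ (by norm_num) (by norm_num) _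
      _ ≤ 4 ^ (2 * N0) := pow_le_pow_right₀ (by norm_num) (by omega)
  have h7 : 4 * (4 : ℤ) ^ (2 * N0) ≤ 4 ^ P0 := by
    rw [← pow_succ']; exact pow_le_pow_right₀ (by norm_num) hN
  have h8 : 4 * (4 : ℤ) ^ M0 ≤ 4 ^ P0 := by
    rw [← pow_succ']; exact pow_le_pow_right₀ (by norm_num) hM
  have h9 : (0 : ℤ) < 4 ^ P0 := by positivity
  linarith

theorem ceil_near {x δ : ℝ} (h0 : 0 ≤ δ) (h1 : δ < 1) : |((⌈x - δ⌉ : ℤ) : ℝ) - ⌈x⌉| ≤ 1 := by
  have a1 : ⌈x - δ⌉ ≤ ⌈x⌉ := Int.ceil_mono (by linarith)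
  have a2 : ⌈x⌉ ≤ ⌈x - δ⌉ + 1 := by
    rw [Int.ceil_le]; push_cast; have := Int.le_ceil (x - δ); linarith
  have a1' : ((⌈x - δ⌉ : ℤ) : ℝ) ≤ ⌈x⌉ := by exact_mod_cast a1
  have a2' : ((⌈x⌉ : ℤ) : ℝ) ≤ ⌈x - δ⌉ + 1 := by exact_mod_cast a2
  rw [abs_le]; constructor <;> linarith

/-- (J12) the same for labels, with merged forms -/
theorem t_BLK : S_UNMK → S_RST → S_BLK := by
  intro hU hR ψ hψ K ε hε
  have hU1 := fun K' : ℕ => hU ψ hψ K' (ε / 4) (by positivity)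
  choose G hG hUG using hU1
  refine ⟨∑ K' ∈ range (K + 1), G K', sum_pos (fun i _ => hG i) ⟨0, by simp⟩, ?_⟩
  have h2 := (Filter.eventually_all_finset (Finset.range (K + 1))).2 (fun K' _ => hUG K')
  have hpow : Tendsto (fun L : ℕ => (2 : ℝ) ^ L) atTop atTop := tendsto_pow_atTop_atTop_of_one_lt (by norm_num)
  filter_upwards [h2, hR K (ε / 4) (by positivity),
    grow (a := 11 / 20) (b := 1) (c := 20) (by norm_num) (by norm_num) (by norm_num),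
    grow (a := 11 / 20) (b := 14 / 25) (c := 2) (by norm_num) (by norm_num) (by norm_num),
    grow (a := 11 / 20) (b := 3 / 4) (c := 2) (by norm_num) (by norm_num) (by norm_num),
    grow (a := 18 / 25) (b := 3 / 4) (c := 2) (by norm_num) (by norm_num) (by norm_num),
    hpow.eventually_ge_atTop (8 / ε), eventually_ge_atTop 1] with L hL hRL g1 g2 g3 g4 g5 g6
  intro F κ m hm X hX hX1 hX2 s hs hz hbd hsep
  obtain ⟨i₁, hi₁⟩ := hz
  rw [rpow_one] at g1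
  obtain ⟨y₀, ρ, hy0, hy1, hrel, hsum⟩ := rebase F (κ * X) (κ * X + X) hs i₁
  obtain ⟨D, hD⟩ : ∃ D : Fin K → ℕ, D = fun i => EK s - (-(s i).1).toNat + (s i).1.toNat := ⟨_, rfl⟩
  obtain ⟨X', hX'⟩ : ∃ X' : ℝ, X' = X / 3 ^ EK s := ⟨_, rfl⟩
  have hq0 : (0 : ℝ) < 3 ^ EK s := by positivity
  have hX'0 : 0 < X' := by rw [hX']; positivity
  have hL0 : (0 : ℝ) ≤ (L : ℝ) ^ (11 / 20 : ℝ) := by positivity
  have hEr : (EK s : ℝ) ≤ (L : ℝ) ^ (11 / 20 : ℝ) := by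
    obtain ⟨j, hj⟩ := EK_attained s i₁
    have h : (((-(s j).1).toNat : ℕ) : ℤ) ≤ |(s j).1| := by
      rcases abs_cases (s j).1 with ⟨h, _⟩ | ⟨h, _⟩ <;> omega
    have h' : (((-(s j).1).toNat : ℕ) : ℝ) ≤ |((s j).1 : ℝ)| := by exact_mod_cast h
    rw [← hj]
    exact h'.trans (hbd j).1
  have hDi : ∀ i, ((D i : ℕ) : ℤ) = (s i).1 + (EK s : ℕ) := by
    intro i
    have := neg_toNat_le s i
    rw [hD]
    simp only
    omega
  have hDr : ∀ i, ((D i : ℕ) : ℝ) = (s i).1 + (EK s : ℕ) := by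
    intro i
    exact_mod_cast hDi i
  have hlog : logb 2 X' = logb 2 X - EK s * logb 2 3 := by
    rw [hX', logb_div hX.ne' hq0.ne', logb_pow]
  have hlog3 : logb 2 3 ≤ 2 := by
    rw [logb_le_iff_le_rpow (by norm_num) (by norm_num)]; norm_num
  have hlog30 : 0 ≤ logb 2 3 := logb_nonneg (by norm_num) (by norm_num)
  have hE0 : (0 : ℝ) ≤ EK s := by positivity
  have hEl : (EK s : ℝ) * logb 2 3 ≤ EK s * 2 := mul_le_mul_of_nonneg_left hlog3 hE0
  have hEl0 : 0 ≤ (EK s : ℝ) * logb 2 3 := mul_nonneg hE0 hlog30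
  have hX'1 : (L : ℝ) ≤ logb 2 X' := by rw [hlog]; linarith
  have hX'2 : logb 2 X' ≤ 4 * L := by
    rw [hlog]
    have : (0 : ℝ) ≤ L := by positivity
    linarith
  have hX'L : (2 : ℝ) ^ L ≤ X' := by
    have := (le_logb_iff_rpow_le (by norm_num : (1 : ℝ) < 2) hX'0).1 hX'1
    rwa [rpow_natCast] at this
  have hX'one : 1 ≤ X' := (one_le_pow₀ (by norm_num)).trans hX'L
  have hIv : ∀ i, Iv (F i) := by
    intro i
    have h := (hm {i} (singleton_nonempty i)).1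
    simpa using h
  have hκ : |κ| ≤ 1 := by
    obtain ⟨_, _, q', hc⟩ := hm {i₁} (singleton_nonempty i₁)
    exact hc.kp
  have s1 : |cgK F κ X s - ccK F κ X' D ρ| ≤ 2 / X' := by
    unfold cgK ccK
    rw [hsum, ← hX', max_eq_left hX'one, ← sub_div, abs_div, abs_of_pos hX'0]
    apply div_le_div_of_nonneg_right _ hX'0.le
    have hδ0 : (0 : ℝ) ≤ (y₀ : ℝ) / 3 ^ EK s := by
      have : (0 : ℝ) ≤ y₀ := by exact_mod_cast hy0
      positivity
    have hδ1 : (y₀ : ℝ) / 3 ^ EK s < 1 := by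
      rw [div_lt_one hq0]; exact_mod_cast hy1
    have e1 : (κ * X - y₀) / 3 ^ EK s = κ * X' - (y₀ : ℝ) / 3 ^ EK s := by rw [hX']; ring
    have e2 : (κ * X + X - y₀) / 3 ^ EK s = κ * X' + X' - (y₀ : ℝ) / 3 ^ EK s := by rw [hX']; ring
    rw [e1, e2]
    have e3 : ∀ u : ℤ, ∏ i, F i (3 ^ (EK s - (-(s i).1).toNat + (s i).1.toNat) * u + ρ i) =
        ∏ i, F i (3 ^ D i * u + ρ i) := by
      intro u; rw [hD]
    simp only [e3]
    have hb1 : ∀ n : ℤ, |∏ i, F i (3 ^ D i * n + ρ i)| ≤ 1 := by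
      intro n
      rw [abs_prod]
      exact prod_le_one (fun _ _ => abs_nonneg _) (fun i _ => (hIv i).bd _)
    refine (sum_Ico_diff zero_le_one hb1 _ _ _ _).trans ?_
    have c1 := ceil_near (x := κ * X') hδ0 hδ1
    have c2 := ceil_near (x := κ * X' + X') hδ0 hδ1
    linarith
  have hρb : ∀ i, |ρ i| ≤ 4 ^ ⌊(L : ℝ) ^ (3 / 4 : ℝ)⌋₊ := by
    intro i
    have hfl : ((⌊(L : ℝ) ^ (11 / 20 : ℝ)⌋₊ : ℕ) : ℝ) ≤ (L : ℝ) ^ (11 / 20 : ℝ) := Nat.floor_le hL0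
    have hfl2 : ((⌊(L : ℝ) ^ (18 / 25 : ℝ)⌋₊ : ℕ) : ℝ) ≤ (L : ℝ) ^ (18 / 25 : ℝ) := Nat.floor_le (by positivity)
    refine rho_bound (hrel i) hy0 hy1 (N0 := ⌊(L : ℝ) ^ (11 / 20 : ℝ)⌋₊) (M0 := ⌊(L : ℝ) ^ (18 / 25 : ℝ)⌋₊)
      (Nat.le_floor hEr) ?_ (hbd i).2 ?_ ?_
    · apply Nat.le_floor
      have h : (((s i).1.toNat : ℕ) : ℤ) ≤ |(s i).1| := by
        rcases abs_cases (s i).1 with ⟨h, _⟩ | ⟨h, _⟩ <;> omega
      have h' : (((s i).1.toNat : ℕ) : ℝ) ≤ |((s i).1 : ℝ)| := by exact_mod_cast h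
      exact h'.trans (hbd i).1
    · apply Nat.le_floor
      push_cast
      linarith
    · apply Nat.le_floor
      push_cast
      have h18 : (0 : ℝ) ≤ (L : ℝ) ^ (18 / 25 : ℝ) := by positivity
      linarith
  have s2 := hRL F hIv κ X' hκ hX'L D ρ hρb
  obtain ⟨K', B, rep, hK', hB, hne, hcov, hprod, hmR⟩ := grp (fun i j => s i = s j) (fun _ => rfl)
    (fun _ _ h => h.symm) (fun _ _ _ h h' => h.trans h')
  have hGle : G K' ≤ ∑ K' ∈ range (K + 1), G K' :=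
    single_le_sum (f := G) (fun i _ => (hG i).le) (Finset.mem_range.2 (by omega))
  have hDs : ∀ i j, s i = s j → D i = D j := by
    intro i j h
    rw [hD]
    simp only
    rw [h]
  have hBne : ∀ b, (B b).Nonempty := fun b => ⟨rep b, (hB b (rep b)).2 rfl⟩
  have s3 := hL K' (Finset.mem_range.2 (by omega)) (fun b n => ∏ i ∈ B b, F i n) κ (fun b => m (B b))
    (fun b => hm (B b) (hBne b)) X' hX'0 hX'1 hX'2 (fun b => D (rep b)) ?_ ?_ ?_
  · have e4 : ccK (fun b n => ∏ i ∈ B b, F i n) κ X' (fun b => D (rep b)) (fun _ => 0) =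
        ccK F κ X' D (fun _ => 0) := by
      unfold ccK
      congr 1
      apply Finset.sum_congr rfl
      intro n _
      rw [hprod (fun i => F i (3 ^ D i * n + 0))]
      apply Finset.prod_congr rfl
      intro b _
      apply Finset.prod_congr rfl
      intro i hi
      show F i (3 ^ D (rep b) * n + 0) = F i (3 ^ D i * n + 0)
      rw [hDs _ _ ((hB b i).1 hi)]
    rw [e4] at s3
    have e5 : mP m s = ∏ b, m (B b) := hmR m
    rw [e5]
    have h5 : 2 / X' ≤ ε / 4 := by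
      rw [div_le_iff₀ hX'0]
      have h6 : 8 / ε ≤ X' := g5.trans hX'L
      rw [div_le_iff₀ hε] at h6
      linarith
    have t1 := abs_sub_le (cgK F κ X s) (ccK F κ X' D ρ) (∏ b, m (B b))
    have t2 := abs_sub_le (ccK F κ X' D ρ) (ccK F κ X' D (fun _ => 0)) (∏ b, m (B b))
    linarith
  · -- some exponent is zero
    have hj : ∃ j, D j = 0 := by
      rcases Nat.eq_zero_or_pos (EK s) with h0 | h0
      · refine ⟨i₁, ?_⟩
        have h := hDi i₁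
        rw [hi₁, h0] at h
        simpa using h
      · obtain ⟨j, hj⟩ := EK_attained s i₁
        refine ⟨j, ?_⟩
        have h := hDi j
        omega
    obtain ⟨j, hj⟩ := hj
    obtain ⟨b, hb⟩ := hcov j
    exact ⟨b, by rw [← hj]; exact hDs _ _ hb⟩
  · intro b
    rw [hDr]
    have h1 := le_abs_self ((s (rep b)).1 : ℝ)
    have h2 := (hbd (rep b)).1
    linarith
  · intro b b' hbb
    rw [hDr, hDr]
    rcases hsep (rep b) (rep b') with h | h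
    · exact absurd h (hne b b' hbb)
    · have e : ((s (rep b)).1 : ℝ) + (EK s : ℕ) - ((s (rep b')).1 + (EK s : ℕ)) = ((s (rep b)).1 : ℝ) - (s (rep b')).1 := by
        ring
      rw [e]
      refine le_trans ?_ h
      exact mul_le_mul_of_nonneg_right hGle (Real.sqrt_nonneg _)

end Pool.Agent.J4H45.KP
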